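import Pool.Agent.H369.SM.Stm

/-!
# SM11: multiplicity at a node, general form
-/

set_option autoImplicit false

namespace Pool.Agent.H218.SM

open Pool.Agent.TH549.CK Pool.Agent.H369.SM TensorProduct

namespace ND0

variable {F : Type} [Field F]

/-- the substitution `v ↦ β s` -/
noncomputable def rs (β : F) : PowerSeries (PowerSeries F) →+* PowerSeries (PowerSeries F) :=
  PowerSeries.rescale (PowerSeries.C β)

theorem coeff_rs (β : F) (x : PowerSeries (PowerSeries F)) (k m : ℕ) :
    PowerSeries.coeff k (PowerSeries.coeff m (rs β x)) =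
      β ^ m * PowerSeries.coeff k (PowerSeries.coeff m x) := by
  unfold rs
  rw [PowerSeries.coeff_rescale, ← map_pow, PowerSeries.coeff_C_mul]

theorem coeff_uv (o : PowerSeries F) (k m : ℕ) :
    PowerSeries.coeff k (PowerSeries.coeff m (uv F o)) =
      if k = m then PowerSeries.coeff m o else 0 := by
  unfold uv
  rw [RingHom.comp_apply, PowerSeries.coeff_rescale, PowerSeries.coeff_map,
    PowerSeries.coeff_mul_C, PowerSeries.coeff_X_pow]
  split_ifs
  · rw [one_mul]
  · rw [zero_mul]

theorem rs_uv (β : F) (o : PowerSeries F) : rs β (uv F o) = P12.ka 1 β o := by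
  ext m k
  rw [coeff_rs, coeff_uv, P12.coeff_ka, one_mul]
  split_ifs
  · rfl
  · rw [mul_zero]

theorem cc_rs (β : F) (x : PowerSeries (PowerSeries F)) (k : ℕ) :
    PowerSeries.coeff k (P12.cc (rs β x)) = PowerSeries.coeff k (PowerSeries.coeff 0 x) := by
  unfold P12.cc
  rw [← PowerSeries.coeff_zero_eq_constantCoeff_apply, coeff_rs, pow_zero, one_mul]

theorem cc_swp_rs (β : F) (x : PowerSeries (PowerSeries F)) (k : ℕ) :
    PowerSeries.coeff k (P12.cc (swp (rs β x))) =
      β ^ k * PowerSeries.coeff 0 (PowerSeries.coeff k x) := by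
  unfold P12.cc
  rw [← PowerSeries.coeff_zero_eq_constantCoeff_apply, coeff_coeff_swp, coeff_rs]

/-- a polynomial which vanishes at all nonzero elements -/
theorem poly_zero [Infinite F] (d : ℕ) (c : ℕ → ℕ → F)
    (h : ∀ β : F, β ≠ 0 → ∑ p ∈ Finset.HasAntidiagonal.antidiagonal d, c p.1 p.2 * β ^ p.2 = 0) (a b : ℕ)
    (hab : a + b = d) : c a b = 0 := by
  classical
  set p : Polynomial F := ∑ q ∈ Finset.HasAntidiagonal.antidiagonal d, Polynomial.C (c q.1 q.2) *
    Polynomial.X ^ q.2 with hp
  have h1 : p = 0 := by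
    apply Polynomial.eq_zero_of_infinite_isRoot
    have h2 : ({0}ᶜ : Set F).Infinite := (Set.finite_singleton (0 : F)).infinite_compl
    refine h2.mono fun β hβ => ?_
    show p.IsRoot β
    rw [Polynomial.IsRoot.def, hp, Polynomial.eval_finsetSum, ← h β hβ]
    refine Finset.sum_congr rfl fun q _ => ?_
    rw [Polynomial.eval_mul, Polynomial.eval_C, Polynomial.eval_pow, Polynomial.eval_X]
  have h2 : p.coeff b = c a b := by
    rw [hp, Polynomial.finsetSum_coeff, Finset.sum_eq_single (a, b)]
    · rw [Polynomial.coeff_C_mul, Polynomial.coeff_X_pow, if_pos rfl, mul_one]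
    · rintro ⟨a', b'⟩ h3 h4
      rw [Finset.HasAntidiagonal.mem_antidiagonal] at h3
      rw [Polynomial.coeff_C_mul, Polynomial.coeff_X_pow, if_neg, mul_zero]
      intro h5
      apply h4
      have h6 : b = b' := h5
      have h7 : a' + b' = d := h3
      rw [Prod.mk.injEq]
      omega
    · intro h3
      exact absurd (Finset.HasAntidiagonal.mem_antidiagonal.2 hab) h3
  rw [← h2, h1, Polynomial.coeff_zero]

end ND0

open ND0

theorem nd0 : S_nd0 := by
  intro F _ _ K _ _ _ M R _ _ _ O χ hinj hO hz ev hev r e o γ hG a b hab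
  set c : ℕ → ℕ → F := fun a b => ∑ x, ∑ y, PowerSeries.coeff 0 (o x y) *
    PowerSeries.coeff a (PowerSeries.coeff 0 (ev (e x))) *
    PowerSeries.coeff 0 (PowerSeries.coeff b (ev (e y))) with hc
  refine poly_zero (a + b) c (fun β hβ => ?_) a b rfl
  have hτ : ¬ (PowerSeries.C PowerSeries.X - PowerSeries.X : PowerSeries (PowerSeries F)) ∣
      P12.ka 1 β PowerSeries.X := by
    intro hd
    have h1 := congrArg (PowerSeries.coeff 2) (P12.dg_of_dvd hd)
    rw [P12.coeff_dg, map_zero] at h1
    simp only [P12.coeff_ka] at h1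
    rw [Finset.sum_range_succ, Finset.sum_range_succ, Finset.sum_range_succ] at h1
    simp [PowerSeries.coeff_X] at h1
    exact hβ h1
  have key := P11.aux K O χ hinj hO hz (P12.ka 1 β) ((rs β).comp ev)
    (swp.comp ((rs β).comp ev))
    (fun o => by rw [RingHom.comp_apply, hev, rs_uv])
    (fun o => by rw [RingHom.comp_apply, RingHom.comp_apply, hev, rs_uv, P12.swp_ka])
    diag_prime hτ (fun f => diag_dvd _) e o hG
  have key2 := map_dvd (P12.cc (F := F)) key
  have e1 : P12.cc (PowerSeries.C PowerSeries.X - PowerSeries.X : PowerSeries (PowerSeries F)) =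
      PowerSeries.X := by
    unfold P12.cc
    rw [map_sub, PowerSeries.constantCoeff_C, PowerSeries.constantCoeff_X, sub_zero]
  rw [map_pow, e1, PowerSeries.X_pow_dvd_iff] at key2
  have h1 := key2 (a + b) hab
  rw [← h1, map_sum, map_sum]
  simp only [map_sum, map_mul, P12.cc_ka, RingHom.comp_apply]
  have h2 : ∀ x y : Fin r, PowerSeries.coeff (a + b)
      (PowerSeries.C (PowerSeries.coeff 0 (o x y)) * P12.cc (rs β (ev (e x))) *
        P12.cc (swp (rs β (ev (e y))))) =
      ∑ p ∈ Finset.HasAntidiagonal.antidiagonal (a + b), (PowerSeries.coeff 0 (o x y) *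
        PowerSeries.coeff p.1 (PowerSeries.coeff 0 (ev (e x))) *
        PowerSeries.coeff 0 (PowerSeries.coeff p.2 (ev (e y)))) * β ^ p.2 := by
    intro x y
    rw [mul_assoc, PowerSeries.coeff_C_mul, PowerSeries.coeff_mul, Finset.mul_sum]
    refine Finset.sum_congr rfl fun p _ => ?_
    rw [cc_rs, cc_swp_rs]
    ring
  simp only [h2]
  have h3 : ∀ p : ℕ × ℕ, c p.1 p.2 * β ^ p.2 = ∑ x, ∑ y, (PowerSeries.coeff 0 (o x y) *
        PowerSeries.coeff p.1 (PowerSeries.coeff 0 (ev (e x))) *
        PowerSeries.coeff 0 (PowerSeries.coeff p.2 (ev (e y)))) * β ^ p.2 := by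
    intro p
    rw [hc, Finset.sum_mul]
    refine Finset.sum_congr rfl fun x _ => ?_
    rw [Finset.sum_mul]
  rw [Finset.sum_congr rfl fun p _ => h3 p, Finset.sum_comm]
  refine Finset.sum_congr rfl fun x _ => ?_
  rw [Finset.sum_comm]

end Pool.Agent.H218.SM
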